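import Pool.Agent.Helper3.TCT.Defs

/-!
# T9, blocks SUB and GOOD: statements of the parts, with proofs in the comments (helper92)

Paper proof: `TC9_helper3.md`, section 3c. Everything is stated with the definitions of
`Helper3/TCT/Defs.lean`.
-/

set_option autoImplicit false

namespace Pool.TCT

open Pool.TC Pool.TCM Pool.TCS Finset
open scoped Classical

section defs

variable {V κ ι : Type} [Fintype V] [Fintype κ]

/-- the guards of `w`: the rows among the neighbours outside of the near-clique of `w` -/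
noncomputable def gdC (G : SimpleGraph V) (K Rw : ι → Finset V) (w : V) : Finset V :=
  univ.filter (fun x => G.Adj w x ∧ (∃ i, w ∈ K i ∧ x ∉ K i) ∧ ∃ j, x ∈ Rw j)

/-- the pair `(w, a)` is kept: its letter is `0`, the letters of its guards are not -/
def keep (G : SimpleGraph V) (K Rw : ι → Finset V) {M : ℕ} (ω : V × κ → Fin M) (w : V) (a : κ) :
    Prop := (ω (w, a)).val = 0 ∧ ∀ x ∈ gdC G K Rw w, (ω (x, a)).val ≠ 0

/-- the coordinates seen by the events of the local lemma -/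
noncomputable def SS (G : SimpleGraph V) (N : κ → V → V) (K Rw : ι → Finset V) :
    (ι × κ) ⊕ (V ⊕ V) → Finset (V × κ)
  | Sum.inl p => (K p.1 ∪ (K p.1).biUnion (fun w => gdC G K Rw w)) ×ˢ {p.2}
  | Sum.inr (Sum.inl w) => {w} ×ˢ univ
  | Sum.inr (Sum.inr v) => univ.image (fun a => (N a v, a))

end defs

/-! ### SUB -/

/-- sSIZE. The size of the thinned column.

Proof. `St_Thin` with `T = J = V × κ`, `A = Fin (10000 * B)`, `tj = id`, `aj j = 0`,
`W' = W.image (fun w => (w, a))` (card `W.card`), `gd (w, _) (x, b) := x ∈ gdC G K Rw w ∧ b = a`, `Bg = B`.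
* `tj w' ≠ tj j`: `j = (x, a)`, `x ∈ gdC w`, `w ∈ W ⊆ Rw i ⊆ K i`; in `gdC` the index is `i` (`Dec.disj`), so `x ∉ K i`,
  but `w' ∈ K i`.
* guards of `w`: contained in `(nb G w \ K i) × {a}`, at most `B` (`Dec.out`).
* `w ∈ W` guarded by `(x, a)`: `x ∈ Rw j ⊆ K j` for some `j`, `j ≠ i` (as `x ∉ K i`), so `w ∉ K j` and `w ∈ nb G x \ K j`, at
  most `B` (`Dec.out`); for `b ≠ a` nobody is guarded by `(x, b)`.
* `2000 * B ≤ 10000 * B`; `10 ^ 8 * B * Lam ≤ W.card` and `10 ^ 8 * (10000 * B) * Lam ≤ W.card`: `W.card ≥ 0.99 D ≥ 0.99 * 10 ^ 16 * B * Lam`.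
* The event: `¬ (98 D ≤ 100 * (10000 B) * cnt)` gives `10000 B * cnt < 98 D / 100 ≤ 99 / 100 * (99 D / 100) ≤ 99 / 100 * W.card`. -/
def St_sSize : Prop := ∀ (V κ ι : Type) [Fintype V] [Fintype κ] (G : SimpleGraph V) (D B : ℕ)
  (K Rw : ι → Finset V) (i : ι) (a : κ) (W : Finset V) (Lam : ℝ), Dec G B K →
  (∀ j, Rw j ⊆ K j) → W ⊆ Rw i → 99 * D ≤ 100 * W.card → 0 < B → 1 ≤ Lam →
  10 ^ 16 * (B : ℝ) * Lam ≤ D →
  ((univ.filter (fun ω : V × κ → Fin (10000 * B) => ¬ (98 * D ≤ 100 * (10000 * B) *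
    (W.filter (fun w => keep G K Rw ω w a)).card))).card : ℝ) ≤
      2 * Real.exp (-Lam) * Fintype.card (V × κ → Fin (10000 * B))

/-- sROW. Few kept pairs in a row and at a right vertex.

Proof. `St_BernL` with `A = Fin (10000 * B)`, `f t α = if (∃ a ∈ C, s a = t) ∧ α.val = 0 then 1 else 0`, `c = 1`,
`W = (24 * D + 50) / 25 / (10000 * B)`. `∑ t, ∑ α, f t α ^ 2 = ∑ t, ∑ α, f t α = (C.image s).card ≤ C.card ≤ W * (10000 * B)`;
`Lam ≤ W` since `D ≥ 10 ^ 16 * B * Lam`. `∑ t, f t (ω t) = #{a ∈ C | (ω (s a)).val = 0}` (`s` injective on `C`).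
The event: `#{..} > 961 D / (1000 * 10000 B)`, and `W + 3 √(W Lam) ≤ 0.961 D / (10000 B)`, because
`10000 B √(W Lam) = √(10000 B Lam (0.96 D + 2)) ≤ √(10 ^ 4 * 10 ^ (-16) * D ^ 2) = 10 ^ (-6) D` and `2 ≤ 10 ^ (-4) D`. -/
def St_sRow : Prop := ∀ (T κ : Type) [Fintype T] [Fintype κ] (C : Finset κ) (s : κ → T) (D B : ℕ)
  (Lam : ℝ), (∀ a ∈ C, ∀ b ∈ C, s a = s b → a = b) → 25 * C.card ≤ 24 * D + 50 → 0 < B →
  1 ≤ Lam → 10 ^ 16 * (B : ℝ) * Lam ≤ D →
  ((univ.filter (fun ω : T → Fin (10000 * B) => ¬ (1000 * (10000 * B) *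
    (C.filter (fun a => (ω (s a)).val = 0)).card ≤ 961 * D))).card : ℝ) ≤
      Real.exp (-Lam) * Fintype.card (T → Fin (10000 * B))

/-- sDEP. The dependencies.

Proof. (1) `(SS j).card ≤ (D + 2) ^ 3`: for `inl (i, a)`: `|K i| ≤ D + 1 + B` (see `St_KSz` of `Helper60/TCT/StB.lean`:
`K i ⊆ insert w (nb G w) ∪ (K i \ insert w (nb G w))` for some `w ∈ K i`), `gdC w ⊆ nb G w \ K i` has at most `B` elements, so at
most `(D + 1 + B) * (1 + B) ≤ (D + 2) ^ 3` (`B ≤ D`); `inr`: at most `D + 1` (`Lat.card`).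
(2) A coordinate `(x, b)` is in at most `D + 3` sets `SS j'`: `inl (i, b)` with `x ∈ K i`: at most one (`Dec.disj`); with
`x ∈ gdC w`, `w ∈ K i`: `w ∈ nb G x`, every `w` has at most one `i`: at most `D` (`Lat.deg`); `inr (inl x)`; `inr (inr v)` with
`N b v = x`: `v = N b x` (`Lat.inv`).
(3) `(D + 2) ^ 3 * (D + 3) ≤ (D + 2) ^ 20`. -/
def St_sDep : Prop := ∀ (V κ ι : Type) [Fintype V] [Fintype κ] [Fintype ι] (G : SimpleGraph V)
  (D B : ℕ) (N : κ → V → V) (K Rw : ι → Finset V), Lat G D N → Dec G B K → 0 < B → B ≤ D →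
  ∀ j, (univ.filter (fun j' => ∃ t, t ∈ SS G N K Rw j ∧ t ∈ SS G N K Rw j')).card ≤ (D + 2) ^ 20

/-! ### GOOD -/

/-- gIDX. The indices of the rows.

Proof. `St_Greedy` with `r u v := (∃ i, u ∈ K i ∧ v ∈ K i) ∨ ∃ a b x, N a x = u ∧ N b x = v`, `d = D ^ 3 - 1`: symmetric; the `v` with
`r u v` are in the `K i` which contains `u` (at most `D + 1 + B` elements, see `St_KSz` of `Helper60/TCT/StB.lean`) or of the form
`N b (N a u)` (`x = N a u`, `Lat.inv`), at most `(D + 1) ^ 2`; `(D + 1 + B) + (D + 1) ^ 2 ≤ D ^ 3 - 1` as `D ≥ 10 ^ 16` and `B ≤ D`.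
(`Fin (d + 1)` and `Fin (D ^ 3)`: transport along `d + 1 = D ^ 3`, e.g. `Fin.cast`.) -/
def St_gIdx : Prop := ∀ (V κ ι : Type) [Fintype V] [Fintype κ] (G : SimpleGraph V) (D B : ℕ)
  (N : κ → V → V) (K : ι → Finset V), Lat G D N → Dec G B K → 0 < B → 10 ^ 16 * B ≤ D →
  ∃ f : V → Fin (D ^ 3), (∀ i, ∀ w ∈ K i, ∀ x ∈ K i, f w = f x → w = x) ∧
    (∀ a b v, f (N a v) = f (N b v) → N a v = N b v)

/-- gR. The right vertices of the options: the node `inr (i, a)` with the index `t` of its row `w` uses `N a w`.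

Proof. Fix `t`. `Y := {inr (i, a) | ∃ w ∈ K i, f w = t ∧ A w a}`, `φ (inr (i, a)) := inl (N a w)` for a chosen such `w` (it is unique
by `h1`), `φ = id` elsewhere. `φ` is injective on `Y`: `N a w = N b w' =: v` gives `w = N a v`, `w' = N b v` (`Lat.inv`) and
`f w = f w'`, so `w = w'` (`h2`), `i = j` (`Dec.disj`), and `N a w = N b w` gives `a = b` (`Lat.inj`). `St_Ext` for the type
`V ⊕ (ι × κ)`. -/
def St_gR : Prop := ∀ (V κ ι : Type) [Fintype V] [Fintype κ] [Fintype ι] (G : SimpleGraph V)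
  (D B : ℕ) (N : κ → V → V) (K : ι → Finset V) (A : V → κ → Prop) (E : ℕ) (f : V → Fin E),
  Lat G D N → Dec G B K → (∀ i, ∀ w ∈ K i, ∀ x ∈ K i, f w = f x → w = x) →
  (∀ a b v, f (N a v) = f (N b v) → N a v = N b v) →
  ∃ r : V ⊕ (ι × κ) → Fin E → V ⊕ (ι × κ), (∀ u u' t, r u t = r u' t → u = u') ∧
    ∀ i a w, w ∈ K i → A w a → r (Sum.inr (i, a)) (f w) = Sum.inl (N a w)

/-- gMAIN. The choice of the rows.

Proof. `S : CS (V ⊕ (ι × κ)) (Fin (D ^ 3))` with `r` (field `inj` = `hr`) and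
`adj u u' := ∃ i a b, u = inr (i, a) ∧ u' = inr (i, b) ∧ a ≠ b` (symmetric, irreflexive; at most `|κ| = D + 1 ≤ D ^ 3` neighbours).
`l` := the least natural number with `98 * D ≤ 100 * (10000 * B) * l` (`Nat.find` or a ceiling), so
`98 / 100 * D / (10000 * B) ≤ l` and `l ≤ #{w ∈ Rw i | A w a}` for `a ∈ Gd i`.
`U := {inr (i, a) | a ∈ Gd i}`, `L (inr (i, a)) :=` a subset of size `l` of `{f w | w ∈ Rw i, A w a}` (`f` is injective on `K i`, so
this set has `#{w ∈ Rw i | A w a} ≥ l` elements; `Finset.exists_subset_card_eq`).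
`St_Iter` with `D := D ^ 3`, `K := Kn`, `g := 1 / 100`:
* `inj2`: `r (inr (i, a)) (f w) = inl (N a w)`; `N a w = N a w'` gives `w = w'` (`Lat.inv`).
* `Cv v`: for `v = inr _` empty. For `v = inl v0`: the pairs `(inr (i, a), t)`, `t = f w`, `w ∈ Rw i ⊆ K i`, `A w a`, `N a w = v0`, so `w = N a v0`
  and `A (N a v0) a`; the pair is determined by `a` (`i` by `Dec.disj`); so at most `#{a | A (N a v0) a} ≤ 961 D / (1000 * 10000 B) ≤
  (1 - 1 / 100) * l` (`0.961 ≤ 0.99 * 0.98 = 0.9702`).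
* `Pn u t`, `u = inr (i, a)`, `t = f w0`, `w0 ∈ K i`: the nodes `inr (i, b)` with `t ∈ L (inr (i, b))`, so `t = f w` with `w ∈ K i`, `A w b`, and `w = w0`:
  at most `#{b | A w0 b} ≤ 961 D / (1000 * 10000 B) ≤ (1 - 1 / 100) * l`.
* the numbers: `NK` (`expI`, `K24`, `LK`, `mK`, `L00`, `LL0`, `err`, `gn`, `L0n`; `0 ≤ (1 - 3 * bet m Kn) ^ n` since `0 ≤ bet m Kn ≤ 1 / m ≤ 1 / 192`;
  `Fin (D ^ 3)` is not empty as `D > 0` by `BD`).
`Solv` gives `c`; `ro i a := ` the row `w ∈ Rw i` with `A w a`, `f w = c (inr (i, a))` for `a ∈ Gd i` (otherwise any element of `K i`,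
`Dec.ne`). The three properties are those of `Solv`: `ro i a = ro i b`, `a ≠ b` gives `c (inr (i, a)) = c (inr (i, b))` for adjacent nodes;
`N a (ro i a) = N b (ro j b)` gives `r u (c u) = r u' (c u')`, so `u = u'`. -/
def St_gMain : Prop := ∀ (V κ ι : Type) [Fintype V] [Fintype κ] [Fintype ι] (G : SimpleGraph V)
  (D B Kn m n L0 : ℕ) (N : κ → V → V) (K : ι → Finset V) (Rw : ι → Finset V)
  (Gd : ι → Finset κ) (A : V → κ → Prop) (Lam : ℝ) (f : V → Fin (D ^ 3))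
  (r : V ⊕ (ι × κ) → Fin (D ^ 3) → V ⊕ (ι × κ)), Lat G D N → Dec G B K →
  NK D B Kn m n L0 Lam → (∀ i, Rw i ⊆ K i) →
  (∀ i, ∀ a ∈ Gd i, 98 * D ≤ 100 * (10000 * B) * ((Rw i).filter (fun w => A w a)).card) →
  (∀ w, 1000 * (10000 * B) * (univ.filter (fun a => A w a)).card ≤ 961 * D) →
  (∀ v, 1000 * (10000 * B) * (univ.filter (fun a => A (N a v) a)).card ≤ 961 * D) →
  (∀ i, ∀ w ∈ K i, ∀ x ∈ K i, f w = f x → w = x) →
  (∀ u u' t, r u t = r u' t → u = u') →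
  (∀ i a w, w ∈ K i → A w a → r (Sum.inr (i, a)) (f w) = Sum.inl (N a w)) →
  ∃ ro : ι → κ → V, (∀ i, ∀ a ∈ Gd i, ro i a ∈ Rw i ∧ A (ro i a) a) ∧
    (∀ i, ∀ a ∈ Gd i, ∀ b ∈ Gd i, ro i a = ro i b → a = b) ∧
    (∀ i j, ∀ a ∈ Gd i, ∀ b ∈ Gd j, N a (ro i a) = N b (ro j b) → i = j ∧ a = b)

end Pool.TCT
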