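import Pool.Agent.Helper92.TCT.StC

/-! # T9, gIdx: the indices of the rows (helper19) -/

set_option autoImplicit false

namespace Pool.TCT

open Pool.TC Pool.TCM Pool.TCS Finset
open scoped Classical

theorem thm_gIdx (hGreedy : St_Greedy) : St_gIdx := by
  intro V κ ι _ _ G D B N K hL hD hB hBD
  have hD0 : 10 ^ 16 ≤ D := by
    have : 10 ^ 16 * 1 ≤ 10 ^ 16 * B := Nat.mul_le_mul_left _ hB
    omega
  have hBD' : B ≤ D := by
    have : 1 * B ≤ 10 ^ 16 * B := Nat.mul_le_mul_right _ (by norm_num)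
    omega
  obtain ⟨r, hr⟩ : ∃ r : V → V → Prop, ∀ u v, r u v ↔
      ((∃ i, u ∈ K i ∧ v ∈ K i) ∨ ∃ a b x, N a x = u ∧ N b x = v) := ⟨_, fun _ _ => Iff.rfl⟩
  have hnum : (D + 1 + B) + (D + 1) * (D + 1) + 1 ≤ D ^ 3 := by
    have h1 : (D + 1 + B) + (D + 1) * (D + 1) + 1 ≤ D * (D + 5) := by
      have h2 : 3 ≤ D := by omega
      nlinarith
    have h3 : D * (D + 5) ≤ D * (D * D) := Nat.mul_le_mul_left _ (by nlinarith)
    calc _ ≤ D * (D + 5) := h1
      _ ≤ D * (D * D) := h3
      _ = D ^ 3 := by ring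
  have hcard : ∀ u, (univ.filter (fun v => v ≠ u ∧ r u v)).card ≤ D ^ 3 - 1 := by
    intro u
    have hA : ∃ Q : Finset V, Q.card ≤ D + 1 + B ∧ ∀ i, u ∈ K i → K i ⊆ Q := by
      by_cases h : ∃ i, u ∈ K i
      · obtain ⟨i, hi⟩ := h
        refine ⟨insert u (nb G u) ∪ (K i \ insert u (nb G u)), ?_, ?_⟩
        · refine (Finset.card_union_le _ _).trans ?_
          have h1 := Finset.card_insert_le u (nb G u)
          have h2 := hD.inn i u hi
          have h3 := hL.deg u
          omega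
        · intro j hj
          have : i = j := hD.disj i j u hi hj
          subst this
          intro x hx
          by_cases hx2 : x ∈ insert u (nb G u)
          · exact Finset.mem_union_left _ hx2
          · exact Finset.mem_union_right _ (Finset.mem_sdiff.2 ⟨hx, hx2⟩)
      · exact ⟨∅, by simp, fun i hi => absurd ⟨i, hi⟩ h⟩
    obtain ⟨Q, hQ1, hQ2⟩ := hA
    have hsub : (univ.filter (fun v => v ≠ u ∧ r u v)) ⊆
        Q ∪ (univ : Finset (κ × κ)).image (fun p => N p.2 (N p.1 u)) := by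
      intro v hv
      obtain ⟨-, -, hv2⟩ := Finset.mem_filter.1 hv
      rcases (hr _ _).1 hv2 with ⟨i, hi1, hi2⟩ | ⟨a, b, x, hx1, hx2⟩
      · exact Finset.mem_union_left _ (hQ2 i hi1 hi2)
      · refine Finset.mem_union_right _ (Finset.mem_image.2 ⟨(a, b), Finset.mem_univ _, ?_⟩)
        show N b (N a u) = v
        rw [← hx1, hL.inv, hx2]
    have h1 := Finset.card_le_card hsub
    have h2 := Finset.card_union_le Q ((univ : Finset (κ × κ)).image (fun p => N p.2 (N p.1 u)))
    have h3 : ((univ : Finset (κ × κ)).image (fun p => N p.2 (N p.1 u))).card ≤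
        (D + 1) * (D + 1) := by
      refine Finset.card_image_le.trans ?_
      rw [Finset.card_univ, Fintype.card_prod, hL.card]
    omega
  obtain ⟨f, hf⟩ := hGreedy V r (D ^ 3 - 1) (by
    intro u v h
    rw [hr] at h ⊢
    rcases h with ⟨i, h1, h2⟩ | ⟨a, b, x, h1, h2⟩
    · exact Or.inl ⟨i, h2, h1⟩
    · exact Or.inr ⟨b, a, x, h2, h1⟩) hcard
  have he : D ^ 3 - 1 + 1 = D ^ 3 := by omega
  refine ⟨fun v => Fin.cast he (f v), ?_, ?_⟩
  · intro i w hw x hx h
    by_contra hne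
    exact hf w x hne ((hr _ _).2 (Or.inl ⟨i, hw, hx⟩)) (Fin.cast_injective he h)
  · intro a b v h
    by_contra hne
    exact hf _ _ hne ((hr _ _).2 (Or.inr ⟨a, b, v, rfl, rfl⟩)) (Fin.cast_injective he h)

end Pool.TCT
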