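import Pool.Agent.Helper92.TCT.StC

/-!
# T9, block GOOD: the choice of the rows (gMAIN)
-/

set_option autoImplicit false

namespace Pool.TCT

open Pool.TC Pool.TCM Pool.TCS Finset
open scoped Classical

/-- the second index of a node -/
private def gMain_pr {V κ ι : Type} : V ⊕ (ι × κ) → Option κ
  | Sum.inl _ => none
  | Sum.inr q => some q.2

private theorem gMain_mCv {X Y : Type} [Fintype X] [Fintype Y] (S : CS X Y) (U : Finset X)
    (L : X → Finset Y) (v : X) (p : X × Y) :
    p ∈ Cv S U L v ↔ p.1 ∈ U ∧ p.2 ∈ L p.1 ∧ S.r p.1 p.2 = v := by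
  unfold Cv
  rw [Finset.mem_filter]
  exact ⟨fun h => h.2, fun h => ⟨Finset.mem_univ _, h⟩⟩

private theorem gMain_mPn {X Y : Type} [Fintype X] (S : CS X Y) (U : Finset X)
    (L : X → Finset Y) (u : X) (a : Y) (w : X) :
    w ∈ Pn S U L u a ↔ w ∈ U ∧ S.adj u w ∧ a ∈ L w := by
  unfold Pn
  rw [Finset.mem_filter]
  exact ⟨fun h => h.2, fun h => ⟨Finset.mem_univ _, h⟩⟩

private theorem gMain_mA {X Y : Type} [Fintype X] (S : CS X Y) (u v : X) :
    v ∈ univ.filter (fun v => S.adj u v) ↔ S.adj u v := by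
  rw [Finset.mem_filter]
  exact ⟨fun h => h.2, fun h => ⟨Finset.mem_univ _, h⟩⟩

private theorem gMain_num {D B l c : ℕ} (hB : 0 < B) (h98 : 98 * D ≤ 100 * (10000 * B) * l)
    (hc : 1000 * (10000 * B) * c ≤ 961 * D) : (c : ℝ) ≤ (1 - 1 / 100) * l := by
  have h1 : (1000 : ℝ) * (10000 * B) * c ≤ 961 * D := by exact_mod_cast hc
  have h2 : (98 : ℝ) * D ≤ 100 * (10000 * B) * l := by exact_mod_cast h98
  have hB' : (0 : ℝ) < B := by exact_mod_cast hB
  have h3 : (B : ℝ) * c ≤ B * ((1 - 1 / 100) * l) := by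
    have h4 : (0 : ℝ) ≤ B * l := by positivity
    nlinarith
  exact le_of_mul_le_mul_left h3 hB'

theorem thm_gMain (hIter : Pool.TCS.St_Iter) : St_gMain := by
  intro V κ ι _ _ _ G D B Kn m n L0 N K Rw Gd A Lam f r hLat hDec hNK hRw h98 hA1 hA2 hf hr hrr
  have hB0 := hNK.B0
  have hLa := hNK.La
  -- `D` is large
  have hD2 : 2 ≤ D := by
    have h1 := hNK.BD
    have h2 : (1 : ℝ) ≤ B := by exact_mod_cast hB0
    have h3 : (1 : ℝ) ≤ B * Lam := by nlinarith
    have h4 : (2 : ℝ) ≤ D := by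
      have h5 : (10 : ℝ) ^ 16 * B * Lam = 10 ^ 16 * (B * Lam) := by ring
      rw [h5] at h1
      have h6 : (10 : ℝ) ^ 16 * 1 ≤ 10 ^ 16 * (B * Lam) :=
        mul_le_mul_of_nonneg_left h3 (by positivity)
      have h7 : (2 : ℝ) ≤ 10 ^ 16 * 1 := by norm_num
      linarith
    exact_mod_cast h4
  have hDr : D + 1 ≤ D ^ 3 := by nlinarith [sq_nonneg D, Nat.mul_le_mul hD2 hD2]
  have : Nonempty (Fin (D ^ 3)) := ⟨⟨0, by positivity⟩⟩
  -- the conflict structure
  let S : CS (V ⊕ (ι × κ)) (Fin (D ^ 3)) :=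
    { adj := fun u u' => ∃ i a b, u = Sum.inr (i, a) ∧ u' = Sum.inr (i, b) ∧ a ≠ b
      r := r
      symm := by
        rintro u u' ⟨i, a, b, h1, h2, h3⟩
        exact ⟨i, b, a, h2, h1, h3.symm⟩
      irr := by
        rintro u ⟨i, a, b, h1, h2, h3⟩
        rw [h1] at h2
        have h4 := Sum.inr.inj h2
        exact h3 (congrArg Prod.snd h4)
      inj := fun u u' a h => hr u u' a h }
  -- the list size
  have hex : ∃ l : ℕ, 98 * D ≤ 100 * (10000 * B) * l := by
    refine ⟨98 * D, ?_⟩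
    have h1 : 1 ≤ 100 * (10000 * B) := by omega
    calc 98 * D = 1 * (98 * D) := (one_mul _).symm
      _ ≤ 100 * (10000 * B) * (98 * D) := Nat.mul_le_mul_right _ h1
  obtain ⟨l, hl, hlmin⟩ : ∃ l : ℕ, 98 * D ≤ 100 * (10000 * B) * l ∧
      ∀ c, 98 * D ≤ 100 * (10000 * B) * c → l ≤ c :=
    ⟨Nat.find hex, Nat.find_spec hex, fun c hc => Nat.find_min' hex hc⟩
  -- the lists
  have hinjf : ∀ i a, ((((Rw i).filter (fun w => A w a)).image f).card) =
      ((Rw i).filter (fun w => A w a)).card := by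
    intro i a
    apply Finset.card_image_of_injOn
    intro w hw x hx hwx
    rw [Finset.mem_coe, Finset.mem_filter] at hw hx
    exact hf i w (hRw i hw.1) x (hRw i hx.1) hwx
  have hLs : ∀ i a, ∃ s : Finset (Fin (D ^ 3)), a ∈ Gd i →
      s ⊆ ((Rw i).filter (fun w => A w a)).image f ∧ s.card = l := by
    intro i a
    by_cases ha : a ∈ Gd i
    · have h1 : l ≤ (((Rw i).filter (fun w => A w a)).image f).card := by
        rw [hinjf]
        exact hlmin _ (h98 i a ha)
      obtain ⟨s, hs1, hs2⟩ := Finset.exists_subset_card_eq h1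
      exact ⟨s, fun _ => ⟨hs1, hs2⟩⟩
    · exact ⟨∅, fun h => absurd h ha⟩
  choose Ls hLs using hLs
  have hmem : ∀ i a, a ∈ Gd i → ∀ t ∈ Ls i a, ∃ w ∈ Rw i, A w a ∧ f w = t := by
    intro i a ha t ht
    have h1 := (hLs i a ha).1 ht
    rw [Finset.mem_image] at h1
    obtain ⟨w, hw, hwt⟩ := h1
    rw [Finset.mem_filter] at hw
    exact ⟨w, hw.1, hw.2, hwt⟩
  let L : V ⊕ (ι × κ) → Finset (Fin (D ^ 3)) := Sum.elim (fun _ => ∅) (fun p => Ls p.1 p.2)
  let U : Finset (V ⊕ (ι × κ)) := univ.filter (fun u => ∃ i a, u = Sum.inr (i, a) ∧ a ∈ Gd i)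
  have hU : ∀ u, u ∈ U ↔ ∃ i a, u = Sum.inr (i, a) ∧ a ∈ Gd i := fun u => by
    simp only [U, Finset.mem_filter, Finset.mem_univ, true_and]
  have hcount : ∀ (C : Finset (V ⊕ (ι × κ))) (F : Finset κ),
      (∀ u ∈ C, ∃ i a, u = Sum.inr (i, a) ∧ a ∈ F) →
      (∀ i j a, Sum.inr (i, a) ∈ C → Sum.inr (j, a) ∈ C → i = j) → C.card ≤ F.card := by
    intro C F h1 h2
    have h3 : C.card ≤ (F.image some).card := by
      apply Finset.card_le_card_of_injOn (gMain_pr (V := V) (ι := ι))
      · intro u hu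
        obtain ⟨i, a, rfl, ha⟩ := h1 u hu
        exact Finset.mem_coe.2 (Finset.mem_image.2 ⟨a, ha, rfl⟩)
      · intro u hu u' hu' huu
        obtain ⟨i, a, rfl, ha⟩ := h1 u hu
        obtain ⟨j, b, rfl, hb⟩ := h1 u' hu'
        have h4 : a = b := Option.some.inj huu
        rw [← h4] at hu' ⊢
        rw [h2 i j a hu hu']
    exact h3.trans Finset.card_image_le
  have hsol : Solv S U L := by
    have hnk := hNK
    refine hIter (V ⊕ (ι × κ)) (Fin (D ^ 3)) S n U L (D ^ 3) l m Kn L0 (1 / 100) Lam ?_ ?_ ?_ ?_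
      ?_ ?_ (by norm_num) (by norm_num) hNK.mK hNK.K24 (by linarith) hNK.LK hNK.expI hNK.L00
      hNK.LL0 hNK.err hNK.gn ?_
    · -- degrees
      intro u
      refine le_trans ?_ hDr
      rw [← hLat.card, ← Finset.card_univ]
      apply hcount
      · intro u' hu'
        rw [gMain_mA] at hu'
        obtain ⟨i, a, b, -, h2, -⟩ := hu'
        exact ⟨i, b, h2, Finset.mem_univ b⟩
      · intro i j a h1 h2
        rw [gMain_mA] at h1 h2
        obtain ⟨i1, a1, b1, h3, h4, -⟩ := h1
        obtain ⟨i2, a2, b2, h5, h6, -⟩ := h2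
        rw [h3] at h5
        have e1 := congrArg Prod.fst (Sum.inr.inj h5)
        have e2 := congrArg Prod.fst (Sum.inr.inj h4)
        have e3 := congrArg Prod.fst (Sum.inr.inj h6)
        simp only at e1 e2 e3
        rw [e2, e3, e1]
    · rw [Fintype.card_fin]
    · intro u hu
      obtain ⟨i, a, rfl, ha⟩ := (hU u).1 hu
      exact (hLs i a ha).2
    · intro u hu t ht t' ht' htt
      obtain ⟨i, a, rfl, ha⟩ := (hU u).1 hu
      obtain ⟨w, hw, hwa, rfl⟩ := hmem i a ha t ht
      obtain ⟨w', hw', hwa', rfl⟩ := hmem i a ha t' ht'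
      have h1 : r (Sum.inr (i, a)) (f w) = r (Sum.inr (i, a)) (f w') := htt
      rw [hrr i a w (hRw i hw) hwa, hrr i a w' (hRw i hw') hwa'] at h1
      have h2 := Sum.inl.inj h1
      have h3 : w = w' := by rw [← hLat.inv a w, h2, hLat.inv a w']
      rw [h3]
    · -- the right vertices
      intro v
      rcases v with v0 | q
      · refine gMain_num hB0 hl (le_trans (Nat.mul_le_mul_left _ ?_) (hA2 v0))
        have key : ∀ p ∈ Cv S U L (Sum.inl v0), ∃ i a, p.1 = Sum.inr (i, a) ∧ N a v0 ∈ K i ∧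
            A (N a v0) a ∧ p.2 = f (N a v0) := by
          intro p hp
          rw [gMain_mCv] at hp
          obtain ⟨hpU, hpL, hpr⟩ := hp
          obtain ⟨i, a, hpe, ha⟩ := (hU p.1).1 hpU
          rw [hpe] at hpL hpr
          obtain ⟨w, hw, hwa, hwt⟩ := hmem i a ha p.2 hpL
          have h1 : r (Sum.inr (i, a)) p.2 = Sum.inl v0 := hpr
          rw [← hwt, hrr i a w (hRw i hw) hwa] at h1
          have h2 := Sum.inl.inj h1
          have h3 : N a v0 = w := by rw [← h2, hLat.inv]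
          refine ⟨i, a, hpe, ?_, ?_, ?_⟩
          · rw [h3]
            exact hRw i hw
          · rw [h3]
            exact hwa
          · rw [h3, hwt]
        have h3 : (Cv S U L (Sum.inl v0)).card ≤
            ((univ.filter (fun a => A (N a v0) a)).image some).card := by
          apply Finset.card_le_card_of_injOn (fun p => gMain_pr p.1)
          · intro p hp
            obtain ⟨i, a, h1, -, h2, -⟩ := key p hp
            refine Finset.mem_coe.2 (Finset.mem_image.2
              ⟨a, Finset.mem_filter.2 ⟨Finset.mem_univ _, h2⟩, ?_⟩)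
            change some a = gMain_pr p.1
            rw [h1]
            rfl
          · intro p hp p' hp' hpp
            obtain ⟨i, a, h1, h1', -, h2⟩ := key p hp
            obtain ⟨j, b, h3, h3', -, h4⟩ := key p' hp'
            simp only [h1, h3] at hpp
            have h5 : a = b := Option.some.inj hpp
            rw [← h5] at h3 h3' h4
            have h6 : i = j := hDec.disj i j _ h1' h3'
            apply Prod.ext
            · rw [h1, h3, h6]
            · rw [h2, h4]
        exact h3.trans Finset.card_image_le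
      · have h1 : Cv S U L (Sum.inr q) = ∅ := by
          rw [Finset.eq_empty_iff_forall_notMem]
          intro p hp
          rw [gMain_mCv] at hp
          obtain ⟨hpU, hpL, hpr⟩ := hp
          obtain ⟨i, a, hpe, ha⟩ := (hU p.1).1 hpU
          rw [hpe] at hpL hpr
          obtain ⟨w, hw, hwa, hwt⟩ := hmem i a ha p.2 hpL
          have h1 : r (Sum.inr (i, a)) p.2 = Sum.inr q := hpr
          rw [← hwt, hrr i a w (hRw i hw) hwa] at h1
          exact absurd h1 (by simp)
        rw [h1, Finset.card_empty, Nat.cast_zero]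
        have : (0 : ℝ) ≤ l := Nat.cast_nonneg l
        nlinarith
    · -- the neighbours
      intro u hu t ht
      obtain ⟨i, a, rfl, ha⟩ := (hU u).1 hu
      obtain ⟨w0, hw0, hwa0, hwt0⟩ := hmem i a ha t ht
      refine gMain_num hB0 hl (le_trans (Nat.mul_le_mul_left _ ?_) (hA1 w0))
      have key : ∀ p ∈ Pn S U L (Sum.inr (i, a)) t, ∃ b, p = Sum.inr (i, b) ∧ A w0 b := by
        intro p hp
        rw [gMain_mPn] at hp
        obtain ⟨hpU, hadj, hpL⟩ := hp
        obtain ⟨j, b, hpe, hb⟩ := (hU p).1 hpU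
        obtain ⟨i', a', b', h1, h2, -⟩ := hadj
        have e1 := congrArg Prod.fst (Sum.inr.inj h1)
        rw [hpe] at h2 hpL
        have e2 := congrArg Prod.fst (Sum.inr.inj h2)
        simp only at e1 e2
        have e3 : j = i := by rw [e2, e1]
        rw [e3] at hpe hb hpL
        obtain ⟨w, hw, hwa, hwt⟩ := hmem i b hb t hpL
        have h3 : w = w0 := hf i w (hRw i hw) w0 (hRw i hw0) (by rw [hwt, hwt0])
        rw [h3] at hwa
        exact ⟨b, hpe, hwa⟩
      apply hcount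
      · intro p hp
        obtain ⟨b, h1, h2⟩ := key p hp
        exact ⟨i, b, h1, Finset.mem_filter.2 ⟨Finset.mem_univ _, h2⟩⟩
      · intro i1 i2 b h1 h2
        obtain ⟨b1, h3, -⟩ := key _ h1
        obtain ⟨b2, h4, -⟩ := key _ h2
        have e1 := congrArg Prod.fst (Sum.inr.inj h3)
        have e2 := congrArg Prod.fst (Sum.inr.inj h4)
        simp only at e1 e2
        rw [e1, e2]
    · -- the number of steps
      refine hNK.L0n.trans ?_
      have hm : (192 : ℝ) ≤ m := by
        have h1 : 192 ≤ m := by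
          have := hNK.mK
          have := hNK.K24
          omega
        exact_mod_cast h1
      have hm0 : (0 : ℝ) < m := by linarith
      have h1m : 1 / (m : ℝ) ≤ 1 / 192 := by
        apply one_div_le_one_div_of_le (by norm_num) hm
      have h1m0 : 0 < 1 / (m : ℝ) := by positivity
      have hbet : bet m Kn ≤ 1 / 192 := by
        unfold bet
        have h2 : (1 - 1 / (m : ℝ)) ^ (2 * Kn) ≤ 1 :=
          pow_le_one₀ (by linarith) (by linarith)
        calc 1 / (m : ℝ) * (1 - 1 / (m : ℝ)) ^ (2 * Kn) ≤ 1 / (m : ℝ) * 1 :=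
              mul_le_mul_of_nonneg_left h2 h1m0.le
          _ ≤ 1 / 192 := by rw [mul_one]; exact h1m
      have hpow : 0 ≤ (1 - 3 * bet m Kn) ^ n := pow_nonneg (by linarith) n
      apply mul_le_mul_of_nonneg_right _ hpow
      have hB' : (0 : ℝ) < 10000 * B := by
        have : (0 : ℝ) < B := by exact_mod_cast hB0
        positivity
      rw [div_le_iff₀ hB']
      have h3 : (98 : ℝ) * D ≤ 100 * (10000 * B) * l := by exact_mod_cast hl
      linarith
  obtain ⟨c, hc1, hc2, hc3⟩ := hsol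
  have hro : ∀ i a, ∃ w : V, a ∈ Gd i → w ∈ Rw i ∧ A w a ∧ f w = c (Sum.inr (i, a)) := by
    intro i a
    by_cases ha : a ∈ Gd i
    · have h1 := hc1 (Sum.inr (i, a)) ((hU _).2 ⟨i, a, rfl, ha⟩)
      obtain ⟨w, hw, hwa, hwt⟩ := hmem i a ha _ h1
      exact ⟨w, fun _ => ⟨hw, hwa, hwt⟩⟩
    · obtain ⟨w, -⟩ := hDec.ne i
      exact ⟨w, fun h => absurd h ha⟩
  choose ro hro using hro
  refine ⟨ro, fun i a ha => ⟨(hro i a ha).1, (hro i a ha).2.1⟩, ?_, ?_⟩
  · intro i a ha b hb hab
    by_contra hne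
    refine hc3 (Sum.inr (i, a)) ((hU _).2 ⟨i, a, rfl, ha⟩) (Sum.inr (i, b))
      ((hU _).2 ⟨i, b, rfl, hb⟩) ⟨i, a, b, rfl, rfl, hne⟩ ?_
    rw [← (hro i a ha).2.2, ← (hro i b hb).2.2, hab]
  · intro i j a ha b hb hab
    by_contra hne
    have hne' : (Sum.inr (i, a) : V ⊕ (ι × κ)) ≠ Sum.inr (j, b) := by
      intro h
      have h1 := Sum.inr.inj h
      exact hne ⟨congrArg Prod.fst h1, congrArg Prod.snd h1⟩
    refine hc2 (Sum.inr (i, a)) ((hU _).2 ⟨i, a, rfl, ha⟩) (Sum.inr (j, b))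
      ((hU _).2 ⟨j, b, rfl, hb⟩) hne' ?_
    change r (Sum.inr (i, a)) (c (Sum.inr (i, a))) = r (Sum.inr (j, b)) (c (Sum.inr (j, b)))
    rw [← (hro i a ha).2.2, ← (hro j b hb).2.2,
      hrr i a _ (hRw i (hro i a ha).1) (hro i a ha).2.1,
      hrr j b _ (hRw j (hro j b hb).1) (hro j b hb).2.1, hab]

end Pool.TCT
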