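import Pool.Agent.Helper92.TCT.StC

/-! # T9, gR: the right vertices of the options (helper19) -/

set_option autoImplicit false

namespace Pool.TCT

open Pool.TC Pool.TCM Pool.TCS Finset
open scoped Classical

theorem thm_gR (hExt : St_Ext) : St_gR := by
  intro V κ ι _ _ _ G D B N K A E f hL hD h1 h2
  have key : ∀ t : Fin E, ∃ g : V ⊕ (ι × κ) → V ⊕ (ι × κ), Function.Injective g ∧
      ∀ i a w, w ∈ K i → A w a → f w = t → g (Sum.inr (i, a)) = Sum.inl (N a w) := by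
    intro t
    obtain ⟨P, hP⟩ : ∃ P : V ⊕ (ι × κ) → ι × κ × V → Prop, ∀ u p, P u p ↔
        (u = Sum.inr (p.1, p.2.1) ∧ p.2.2 ∈ K p.1 ∧ f p.2.2 = t ∧ A p.2.2 p.2.1) :=
      ⟨_, fun _ _ => Iff.rfl⟩
    obtain ⟨φ, hφ0⟩ : ∃ φ : V ⊕ (ι × κ) → V ⊕ (ι × κ), ∀ u, φ u =
        if h : ∃ p, P u p then Sum.inl (N h.choose.2.1 h.choose.2.2) else u := ⟨_, fun _ => rfl⟩
    have hφ : ∀ i a w, w ∈ K i → A w a → f w = t → φ (Sum.inr (i, a)) = Sum.inl (N a w) := by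
      intro i a w hw hA hf
      have h : ∃ p, P (Sum.inr (i, a)) p := ⟨(i, a, w), (hP _ _).2 ⟨rfl, hw, hf, hA⟩⟩
      have hs := h.choose_spec
      rw [hφ0, dif_pos h]
      generalize h.choose = p at hs
      obtain ⟨e1, e2, e3, e4⟩ := (hP _ _).1 hs
      have e5 : (i, a) = (p.1, p.2.1) := Sum.inr_injective e1
      have e6 : i = p.1 := congrArg Prod.fst e5
      have e7 : a = p.2.1 := congrArg Prod.snd e5
      rw [← e6] at e2
      have e8 : p.2.2 = w := h1 i _ e2 w hw (e3.trans hf.symm)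
      rw [← e7, e8]
    obtain ⟨g, hg1, hg2⟩ := hExt (V ⊕ (ι × κ)) (univ.filter fun u => ∃ p, P u p) φ (by
      intro u hu v hv huv
      obtain ⟨p, hp⟩ := (Finset.mem_filter.1 hu).2
      obtain ⟨q, hq⟩ := (Finset.mem_filter.1 hv).2
      obtain ⟨p1, p2, p3, p4⟩ := (hP _ _).1 hp
      obtain ⟨q1, q2, q3, q4⟩ := (hP _ _).1 hq
      rw [p1, q1, hφ _ _ _ p2 p4 p3, hφ _ _ _ q2 q4 q3] at huv
      have e1 : N p.2.1 p.2.2 = N q.2.1 q.2.2 := Sum.inl_injective huv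
      have e2 : N p.2.1 (N p.2.1 p.2.2) = p.2.2 := hL.inv _ _
      have e3 : N q.2.1 (N p.2.1 p.2.2) = q.2.2 := by rw [e1]; exact hL.inv _ _
      have e4 : N p.2.1 (N p.2.1 p.2.2) = N q.2.1 (N p.2.1 p.2.2) := h2 _ _ _ (by
        rw [e2, e3, p3, q3])
      rw [e2, e3] at e4
      have e5 : p.2.1 = q.2.1 := hL.inj p.2.2 _ _ (by rw [e1, e4])
      have e6 : p.1 = q.1 := hD.disj _ _ p.2.2 p2 (by rw [e4]; exact q2)
      rw [p1, q1, e5, e6])
    refine ⟨g, hg2, fun i a w hw hA hf => ?_⟩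
    rw [hg1 _ (Finset.mem_filter.2 ⟨Finset.mem_univ _, (i, a, w), (hP _ _).2 ⟨rfl, hw, hf, hA⟩⟩)]
    exact hφ i a w hw hA hf
  choose g hg1 hg2 using key
  exact ⟨fun u t => g t u, fun u u' t h => hg1 t h, fun i a w hw hA => hg2 (f w) i a w hw hA rfl⟩

end Pool.TCT
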