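import Pool.Agent.Helper92.TCT.StC

/-!
# T9, block SUB: the dependencies (`St_sDep`)
-/

set_option autoImplicit false

namespace Pool.TCT

open Pool.TC Pool.TCM Pool.TCS Finset
open scoped Classical

private theorem sDep_KSz {V κ ι : Type} [Fintype V] [Fintype κ] {G : SimpleGraph V} {D B : ℕ}
    {N : κ → V → V} {K : ι → Finset V} (hL : Lat G D N) (hD : Dec G B K) (i : ι) :
    (K i).card ≤ D + 1 + B := by
  obtain ⟨w, hw⟩ := hD.ne i
  have h1 : K i ⊆ insert w (nb G w) ∪ (K i \ insert w (nb G w)) := by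
    intro x hx
    by_cases h : x ∈ insert w (nb G w)
    · exact mem_union_left _ h
    · exact mem_union_right _ (mem_sdiff.2 ⟨hx, h⟩)
  have h2 := card_le_card h1
  have h3 := card_union_le (insert w (nb G w)) (K i \ insert w (nb G w))
  have h4 := card_insert_le w (nb G w)
  have h5 := hL.deg w
  have h6 := hD.inn i w hw
  omega

private theorem sDep_gd {V ι : Type} [Fintype V] {G : SimpleGraph V} {B : ℕ}
    {K Rw : ι → Finset V} (hD : Dec G B K) {i : ι} {w : V} (hw : w ∈ K i) :
    (gdC G K Rw w).card ≤ B := by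
  refine (card_le_card ?_).trans (hD.out i w hw)
  intro x hx
  simp only [gdC, mem_filter, mem_univ, true_and] at hx
  obtain ⟨h1, ⟨i', h2, h3⟩, _⟩ := hx
  have e := hD.disj i' i w h2 hw
  subst e
  rw [mem_sdiff]
  exact ⟨by simp [nb, h1], h3⟩

private theorem sDep_one {V κ ι : Type} [Fintype V] [Fintype κ] {G : SimpleGraph V} {D B : ℕ}
    {N : κ → V → V} {K Rw : ι → Finset V} (hL : Lat G D N) (hD : Dec G B K) (hB : B ≤ D)
    (j : (ι × κ) ⊕ (V ⊕ V)) : (SS G N K Rw j).card ≤ (D + 2) ^ 3 := by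
  have hD3 : D + 1 ≤ (D + 2) ^ 3 := by nlinarith [sq_nonneg (D : ℕ)]
  rcases j with ⟨i, a⟩ | w | v
  · show ((K i ∪ (K i).biUnion (fun w => gdC G K Rw w)) ×ˢ {a}).card ≤ _
    rw [card_product, card_singleton, mul_one]
    have h1 := card_union_le (K i) ((K i).biUnion (fun w => gdC G K Rw w))
    have h2 : ((K i).biUnion (fun w => gdC G K Rw w)).card ≤ (K i).card * B :=
      card_biUnion_le_card_mul _ _ _ fun w hw => sDep_gd hD hw
    have h3 := sDep_KSz hL hD i
    have h4 : (K i).card * B ≤ (D + 1 + D) * D := Nat.mul_le_mul (by omega) hB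
    calc (K i ∪ (K i).biUnion (fun w => gdC G K Rw w)).card
        ≤ (K i).card + (K i).card * B := h1.trans (Nat.add_le_add_left h2 _)
      _ ≤ (D + 1 + D) + (D + 1 + D) * D := Nat.add_le_add (by omega) h4
      _ ≤ (D + 2) ^ 3 := by nlinarith [sq_nonneg (D : ℕ)]
  · show (({w} : Finset V) ×ˢ (univ : Finset κ)).card ≤ _
    rw [card_product, card_singleton, one_mul, card_univ, hL.card]
    exact hD3
  · show (univ.image (fun a => (N a v, a))).card ≤ _
    refine card_image_le.trans ?_
    rw [card_univ, hL.card]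
    exact hD3

private theorem sDep_two {V κ ι : Type} [Fintype V] [Fintype κ] [Fintype ι] {G : SimpleGraph V}
    {D B : ℕ} {N : κ → V → V} {K Rw : ι → Finset V} (hL : Lat G D N) (hD : Dec G B K)
    (t : V × κ) : (univ.filter (fun j' => t ∈ SS G N K Rw j')).card ≤ D + 3 := by
  obtain ⟨x, b⟩ := t
  let F : Finset ι := (insert x (nb G x)).biUnion (fun w => univ.filter (fun i => w ∈ K i))
  have hF : F.card ≤ (D + 1) * 1 := by
    refine (card_biUnion_le_card_mul _ _ 1 fun w _ => ?_).trans
      (Nat.mul_le_mul_right 1 ((card_insert_le _ _).trans (by rw [hL.deg x])))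
    rw [card_le_one]
    intro i hi i' hi'
    simp only [mem_filter, mem_univ, true_and] at hi hi'
    exact hD.disj i i' w hi hi'
  have hsub : univ.filter (fun j' => (x, b) ∈ SS G N K Rw j') ⊆
      F.image (fun i => (Sum.inl (i, b) : (ι × κ) ⊕ (V ⊕ V))) ∪
        {Sum.inr (Sum.inl x), Sum.inr (Sum.inr (N b x))} := by
    intro j hj
    rw [mem_filter] at hj
    have hj := hj.2
    rcases j with ⟨i, a⟩ | w | v
    · have h1 : (x, b) ∈ (K i ∪ (K i).biUnion (fun w => gdC G K Rw w)) ×ˢ ({a} : Finset κ) := hj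
      rw [mem_product, mem_singleton] at h1
      obtain ⟨h1, h2⟩ := h1
      have h2 : b = a := h2
      subst h2
      refine mem_union_left _ (mem_image.2 ⟨i, ?_, rfl⟩)
      rw [mem_union, mem_biUnion] at h1
      rw [mem_biUnion]
      rcases h1 with h1 | ⟨w, hw, h1⟩
      · exact ⟨x, mem_insert_self _ _, by simpa using h1⟩
      · simp only [gdC, mem_filter, mem_univ, true_and] at h1
        refine ⟨w, mem_insert_of_mem ?_, by simpa using hw⟩
        simp only [nb, mem_filter, mem_univ, true_and]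
        exact h1.1.symm
    · have h1 : (x, b) ∈ ({w} : Finset V) ×ˢ (univ : Finset κ) := hj
      rw [mem_product, mem_singleton] at h1
      have h2 : x = w := h1.1
      subst h2
      exact mem_union_right _ (by simp)
    · have h1 : (x, b) ∈ univ.image (fun a => (N a v, a)) := hj
      rw [mem_image] at h1
      obtain ⟨a, _, h1⟩ := h1
      have h2 : N a v = x := congrArg Prod.fst h1
      have h3 : a = b := congrArg Prod.snd h1
      subst h3
      have h4 : v = N a x := by rw [← h2, hL.inv]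
      subst h4
      exact mem_union_right _ (by simp)
  have h1 := card_le_card hsub
  have h2 := card_union_le (F.image (fun i => (Sum.inl (i, b) : (ι × κ) ⊕ (V ⊕ V))))
    {Sum.inr (Sum.inl x), Sum.inr (Sum.inr (N b x))}
  have h3 : (F.image (fun i => (Sum.inl (i, b) : (ι × κ) ⊕ (V ⊕ V)))).card ≤ F.card :=
    card_image_le
  have h4 : ({Sum.inr (Sum.inl x), Sum.inr (Sum.inr (N b x))} :
      Finset ((ι × κ) ⊕ (V ⊕ V))).card ≤ 2 := card_le_two
  omega

theorem thm_sDep : St_sDep := by
  intro V κ ι _ _ _ G D B N K Rw hL hD _ hB j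
  have h1 : univ.filter (fun j' => ∃ t, t ∈ SS G N K Rw j ∧ t ∈ SS G N K Rw j') ⊆
      (SS G N K Rw j).biUnion (fun t => univ.filter (fun j' => t ∈ SS G N K Rw j')) := by
    intro j' hj'
    rw [mem_filter] at hj'
    obtain ⟨t, ht, ht'⟩ := hj'.2
    rw [mem_biUnion]
    exact ⟨t, ht, by simpa using ht'⟩
  refine (card_le_card h1).trans ?_
  refine (card_biUnion_le_card_mul _ _ (D + 3) fun t _ => sDep_two hL hD t).trans ?_
  have h2 := sDep_one (Rw := Rw) hL hD hB j
  calc (SS G N K Rw j).card * (D + 3) ≤ (D + 2) ^ 3 * (D + 2) ^ 2 :=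
        Nat.mul_le_mul h2 (by nlinarith)
    _ = (D + 2) ^ 5 := by ring
    _ ≤ (D + 2) ^ 20 := Nat.pow_le_pow_right (by omega) (by norm_num)

end Pool.TCT
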