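import Pool.Agent.Helper92.TCT.StC

/-!
# T9, block SUB: few kept pairs in a row (helper9)
-/

set_option autoImplicit false

namespace Pool.TCT

open Pool.TC Pool.TCM Pool.TCS Finset
open scoped Classical

theorem sRow_card {T κ : Type} [Fintype T] (C : Finset κ) (s : κ → T)
    (hinj : ∀ a ∈ C, ∀ b ∈ C, s a = s b → a = b) (P : T → Prop)
    (i1 : ∀ t, Decidable ((∃ a ∈ C, s a = t) ∧ P t)) (i2 : DecidablePred fun a => P (s a)) :
    ∑ t, (if (∃ a ∈ C, s a = t) ∧ P t then (1 : ℝ) else 0) =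
      ((C.filter (fun a => P (s a))).card : ℝ) := by
  rw [← Finset.sum_filter, Finset.sum_const, nsmul_eq_mul, mul_one]
  have h1 : univ.filter (fun t => (∃ a ∈ C, s a = t) ∧ P t) =
      (C.filter (fun a => P (s a))).image s := by
    ext t
    constructor
    · intro ht
      obtain ⟨-, ⟨a, ha, hat⟩, hP⟩ := mem_filter.1 ht
      subst hat
      exact mem_image.2 ⟨a, mem_filter.2 ⟨ha, hP⟩, rfl⟩
    · intro ht
      obtain ⟨a, ha, hat⟩ := mem_image.1 ht
      subst hat
      exact mem_filter.2 ⟨mem_univ _, ⟨a, (mem_filter.1 ha).1, rfl⟩, (mem_filter.1 ha).2⟩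
  rw [h1, card_image_of_injOn]
  intro a ha b hb hab
  exact hinj a (mem_filter.1 (mem_coe.1 ha)).1 b (mem_filter.1 (mem_coe.1 hb)).1 hab

theorem thm_sRow (hBernL : St_BernL) : St_sRow := by
  intro T κ _ _ C s D B Lam hinj hC hB hLam hD
  have hB' : (0 : ℝ) < B := by exact_mod_cast hB
  have hM0 : 0 < 10000 * B := by omega
  have hM : (0 : ℝ) < 10000 * B := by positivity
  have hne : Nonempty (Fin (10000 * B)) := ⟨⟨0, hM0⟩⟩
  have hLB : (B : ℝ) ≤ B * Lam := by nlinarith
  have hD0 : (10 : ℝ) ^ 16 ≤ D := by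
    have h1 : (1 : ℝ) ≤ B := by exact_mod_cast hB
    nlinarith
  have hCr : (25 : ℝ) * C.card ≤ 24 * D + 50 := by exact_mod_cast hC
  obtain ⟨W, hW⟩ : ∃ W : ℝ, W = (24 * D + 50) / 25 / (10000 * B) := ⟨_, rfl⟩
  have hWM : W * (10000 * B) = (24 * D + 50) / 25 := by
    rw [hW, div_mul_cancel₀ _ hM.ne']
  have hcA : (Fintype.card (Fin (10000 * B)) : ℝ) = 10000 * B := by
    rw [Fintype.card_fin]
    push_cast
    ring
  have hWLam : Lam ≤ W := by
    have h1 : Lam * (10000 * B) ≤ W * (10000 * B) := by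
      rw [hWM]
      nlinarith
    exact le_of_mul_le_mul_right h1 hM
  let f : T → Fin (10000 * B) → ℝ := fun t α => if (∃ a ∈ C, s a = t) ∧ α.val = 0 then 1 else 0
  have hf : ∀ t α, f t α = if (∃ a ∈ C, s a = t) ∧ α.val = 0 then 1 else 0 := fun _ _ => rfl
  have hrow : ∀ t, ∑ α, f t α = if (∃ a ∈ C, s a = t) ∧ True then (1 : ℝ) else 0 := by
    intro t
    rw [Finset.sum_eq_single (⟨0, hM0⟩ : Fin (10000 * B))]
    · rw [hf]
      simp
    · intro b _ hb
      rw [hf, if_neg]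
      rintro ⟨-, h⟩
      exact hb (Fin.ext h)
    · intro h
      exact absurd (mem_univ _) h
  have hsum : ∑ t, ∑ α, f t α = C.card := by
    rw [Finset.sum_congr rfl (fun t _ => hrow t), sRow_card C s hinj (fun _ => True) _
      (fun _ => instDecidableTrue)]
    simp
  have hsq : ∀ t α, f t α ^ 2 = f t α := by
    intro t α
    rw [hf]
    split_ifs <;> norm_num
  have hsum2 : ∑ t, ∑ α, f t α ^ 2 = C.card := by
    rw [← hsum]
    exact Finset.sum_congr rfl fun t _ => Finset.sum_congr rfl fun α _ => hsq t α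
  have key := hBernL T (Fin (10000 * B)) f 1 W Lam one_pos (by linarith) (by linarith)
    (fun t α => by
      rw [hf]
      split_ifs <;> norm_num)
    (by
      rw [hsum2, hcA, hWM]
      linarith)
  refine le_trans ?_ key
  rw [Nat.cast_le]
  refine card_le_card fun ω hω => ?_
  have hω1 := (mem_filter.1 hω).2
  refine mem_filter.2 ⟨mem_univ _, ?_⟩
  have hcnt : ∑ t, f t (ω t) = ((C.filter (fun a => (ω (s a)).val = 0)).card : ℝ) :=
    sRow_card C s hinj (fun t => (ω t).val = 0) _ _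
  rw [hcnt, hsum, hcA]
  have h1 : (961 : ℝ) * D < 1000 * (10000 * B) *
      ((C.filter (fun a => (ω (s a)).val = 0)).card : ℝ) := by
    have h2 := not_le.1 hω1
    exact_mod_cast h2
  have h3 : Real.sqrt (W * Lam) * (10000 * B) ≤ D / 10 ^ 6 := by
    have hDpos : (0 : ℝ) ≤ D := by linarith
    have h4 : Real.sqrt (W * Lam) * (10000 * B) = Real.sqrt (W * Lam * (10000 * B) ^ 2) := by
      rw [Real.sqrt_mul' (W * Lam) (by positivity : (0 : ℝ) ≤ (10000 * B) ^ 2),
        Real.sqrt_sq hM.le]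
    rw [h4]
    refine Real.sqrt_le_iff.2 ⟨by positivity, ?_⟩
    have h5 : W * Lam * (10000 * B) ^ 2 = (24 * D + 50) / 25 * (10000 * (B * Lam)) := by
      rw [← hWM]
      ring
    rw [h5]
    have h6 : 10000 * (B * Lam) ≤ (D : ℝ) / 10 ^ 12 := by
      rw [le_div_iff₀ (by positivity)]
      linarith
    have h7 : (24 * (D : ℝ) + 50) / 25 ≤ D := by linarith
    have h8 : (0 : ℝ) ≤ 10000 * (B * Lam) := by positivity
    calc (24 * (D : ℝ) + 50) / 25 * (10000 * (B * Lam)) ≤ D * (D / 10 ^ 12) :=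
          mul_le_mul h7 h6 h8 hDpos
      _ = (D / 10 ^ 6) ^ 2 := by ring
  have h9 : (C.card : ℝ) / (10000 * B) ≤ W := by
    rw [div_le_iff₀ hM, hWM]
    linarith
  have h10 : (W + 3 * Real.sqrt (W * Lam)) * (10000 * B) ≤
      ((C.filter (fun a => (ω (s a)).val = 0)).card : ℝ) * (10000 * B) := by
    have h11 : (W + 3 * Real.sqrt (W * Lam)) * (10000 * B) =
        (24 * D + 50) / 25 + 3 * (Real.sqrt (W * Lam) * (10000 * B)) := by
      rw [← hWM]
      ring
    rw [h11]
    linarith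
  have h12 := le_of_mul_le_mul_right h10 hM
  linarith

end Pool.TCT
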