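import Pool.Agent.Helper92.TCT.StC

/-!
# T9, sSize: the size of the thinned column
-/

set_option autoImplicit false

namespace Pool.TCT

open Pool.TC Pool.TCM Pool.TCS Finset
open scoped Classical

private theorem sSize_nb {V : Type} [Fintype V] (G : SimpleGraph V) (u v : V) :
    v ∈ nb G u ↔ G.Adj u v := by
  simp [nb]

private theorem sSize_gd {V ι : Type} [Fintype V] (G : SimpleGraph V) {B : ℕ}
    {K Rw : ι → Finset V} (hK : Dec G B K) {i : ι} {w x : V} (hw : w ∈ K i)
    (hx : x ∈ gdC G K Rw w) : G.Adj w x ∧ x ∉ K i ∧ ∃ j, x ∈ Rw j := by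
  obtain ⟨h1, ⟨i', h2, h3⟩, h4⟩ := (Finset.mem_filter.1 hx).2
  have h5 : i' = i := hK.disj i' i w h2 hw
  subst h5
  exact ⟨h1, h3, h4⟩

/-- comparison of events, independent of the instances -/
private theorem sSize_le {X : Type} (i1 i2 : Fintype X) (p q : X → Prop) (d1 : DecidablePred p)
    (d2 : DecidablePred q) (h : ∀ x, p x → q x) :
    ((@Finset.filter X p d1 (@univ X i1)).card : ℝ) ≤
      ((@Finset.filter X q d2 (@univ X i2)).card : ℝ) := by
  have : (@Finset.filter X p d1 (@univ X i1)).card ≤ (@Finset.filter X q d2 (@univ X i2)).card := by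
    refine Finset.card_le_card fun x hx => ?_
    rw [Finset.mem_filter] at hx ⊢
    exact ⟨@Finset.mem_univ X i2 x, h x hx.2⟩
  exact_mod_cast this

private theorem sSize_mem {X : Type} (s : Finset X) (p : X → Prop) (d : DecidablePred p) (x : X) :
    x ∈ @Finset.filter X p d s ↔ x ∈ s ∧ p x := Finset.mem_filter

private theorem sSize_card {X : Type} (i1 i2 : Fintype X) :
    @Fintype.card X i1 = @Fintype.card X i2 :=
  @Fintype.card_congr X X i1 i2 (Equiv.refl X)

theorem thm_sSize (hThin : St_Thin) : St_sSize := by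
  intro V κ ι _ _ G D B K Rw i a W Lam hK hRw hW hWc hB hLam hD
  have hWK : ∀ w ∈ W, w ∈ K i := fun w hw => hRw i (hW hw)
  have hBpos : 0 < 10000 * B := by omega
  have hne : Nonempty (Fin (10000 * B)) := ⟨⟨0, hBpos⟩⟩
  have hBr : (1 : ℝ) ≤ B := by exact_mod_cast hB
  have hBL : 0 < (B : ℝ) * Lam := by positivity
  have hWr : 99 * (D : ℝ) ≤ 100 * W.card := by exact_mod_cast hWc
  have hinj : Function.Injective (fun w : V => (w, a)) := fun u v h => congrArg Prod.fst h
  have hcard : (W.image (fun w : V => (w, a))).card = W.card :=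
    Finset.card_image_of_injective _ hinj
  have key := hThin (V × κ) (Fin (10000 * B)) (V × κ) (fun j => j) (fun _ => ⟨0, hBpos⟩)
    (W.image (fun w : V => (w, a))) (fun p q => q.1 ∈ gdC G K Rw p.1 ∧ q.2 = a) B B Lam
    (fun j j' h _ => h) ?_ ?_ ?_ hB (by linarith) ?_ ?_ ?_
  · refine le_trans (sSize_le _ _ _ _ _ _ ?_) (key.trans (le_of_eq ?_))
    · intro ω h1
      have h2 : ∀ dp : DecidablePred (fun w : V × κ => ω w = ⟨0, hBpos⟩ ∧
            ∀ j : V × κ, (j.1 ∈ gdC G K Rw w.1 ∧ j.2 = a) → ω j ≠ ⟨0, hBpos⟩),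
          (@Finset.filter _ _ dp (W.image (fun w : V => (w, a)))).card ≤
          (W.filter (fun w => keep G K Rw ω w a)).card := by
        intro dp
        rw [Finset.filter_image]
        refine Finset.card_image_le.trans (Finset.card_le_card ?_)
        intro w hw
        obtain ⟨hw1, hw2, hw3⟩ := Finset.mem_filter.1 hw
        refine Finset.mem_filter.2 ⟨hw1, ?_, ?_⟩
        · rw [hw2]
        · intro x hx h0
          exact hw3 (x, a) ⟨hx, rfl⟩ (Fin.ext h0)
      have h3 : 100 * (10000 * B) * (W.filter (fun w => keep G K Rw ω w a)).card < 98 * D :=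
        not_le.1 h1
      have h4 : 100 * (10000 * (B : ℝ)) * ((W.filter (fun w => keep G K Rw ω w a)).card : ℝ) <
          98 * D := by exact_mod_cast h3
      have h5 : ∀ dp : DecidablePred (fun w : V × κ => ω w = ⟨0, hBpos⟩ ∧
            ∀ j : V × κ, (j.1 ∈ gdC G K Rw w.1 ∧ j.2 = a) → ω j ≠ ⟨0, hBpos⟩),
          ((@Finset.filter _ _ dp (W.image (fun w : V => (w, a)))).card : ℝ) ≤
          ((W.filter (fun w => keep G K Rw ω w a)).card : ℝ) := fun dp => by
        exact_mod_cast h2 dp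
      have hD0 : (0 : ℝ) ≤ D := Nat.cast_nonneg D
      rw [hcard, Fintype.card_fin]
      push_cast
      refine lt_of_le_of_lt (mul_le_mul_of_nonneg_left (h5 _)
        (show (0 : ℝ) ≤ 10000 * (B : ℝ) by positivity)) ?_
      linarith
    · rw [sSize_card]
  · intro w hw j hj w' hw'
    obtain ⟨u, hu, rfl⟩ := Finset.mem_image.1 hw
    obtain ⟨u', hu', rfl⟩ := Finset.mem_image.1 hw'
    have h1 := sSize_gd G hK (hWK u hu) hj.1
    intro he
    have he' : (u', a) = j := he
    rw [← he'] at h1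
    exact h1.2.1 (hWK u' hu')
  · intro w hw
    obtain ⟨u, hu, rfl⟩ := Finset.mem_image.1 hw
    refine (Finset.card_le_card (t := (nb G u \ K i).image (fun x => (x, a))) ?_).trans
      (Finset.card_image_le.trans (hK.out i u (hWK u hu)))
    intro j hj
    obtain ⟨h2, h3⟩ := ((sSize_mem _ _ _ _).1 hj).2
    have h4 := sSize_gd G hK (hWK u hu) h2
    refine Finset.mem_image.2 ⟨j.1, Finset.mem_sdiff.2 ⟨(sSize_nb G u j.1).2 h4.1, h4.2.1⟩, ?_⟩
    rw [← h3]
  · intro j
    by_cases hex : ∃ w ∈ W, j.1 ∈ gdC G K Rw w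
    · obtain ⟨w0, hw0, hj0⟩ := hex
      obtain ⟨-, h2, j', h3⟩ := sSize_gd G hK (hWK w0 hw0) hj0
      have h4 : j.1 ∈ K j' := hRw j' h3
      refine (Finset.card_le_card (t := (nb G j.1 \ K j').image (fun x => (x, a))) ?_).trans
        (Finset.card_image_le.trans (hK.out j' j.1 h4))
      intro p hp
      obtain ⟨hp1, hp2, -⟩ := (sSize_mem _ _ _ _).1 hp
      obtain ⟨u, hu, rfl⟩ := Finset.mem_image.1 hp1
      have h6 := sSize_gd G hK (hWK u hu) hp2
      refine Finset.mem_image.2 ⟨u, Finset.mem_sdiff.2 ⟨(sSize_nb G j.1 u).2 h6.1.symm, ?_⟩, rfl⟩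
      intro h7
      have h8 : j' = i := hK.disj j' i u h7 (hWK u hu)
      rw [h8] at h4
      exact h2 h4
    · refine (Finset.card_eq_zero.2 ?_).le.trans (Nat.zero_le _)
      refine Finset.eq_empty_of_forall_notMem fun p hp => ?_
      obtain ⟨hp1, hp2, -⟩ := (sSize_mem _ _ _ _).1 hp
      obtain ⟨u, hu, rfl⟩ := Finset.mem_image.1 hp1
      exact hex ⟨u, hu, hp2⟩
  · rw [Fintype.card_fin]
    omega
  · rw [hcard]
    nlinarith
  · rw [hcard, Fintype.card_fin]
    push_cast
    nlinarith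

end Pool.TCT
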